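import Pool.Agent.Lib.MP_3a0263_al.Q.Ex2
import Pool.Agent.Lib.MP_3a0263_al.Q.GFinal

namespace Pool.Agent.Results.MP_3a0263_al.CharTwoExample

open Pool.Agent.Lib.MP_3a0263_al Pool.Agent.Lib.MP_3a0263_al.R

attribute [local instance 100] LieRing.ofAssociativeRing

universe u

theorem result (k : Type u) [Field k] [IsAlgClosed k] [CharP k 2] :
    ∃ b : LieSubalgebra k (Matrix (Fin 2) (Fin 2) k), (∀ x, x ∈ b ↔ x 1 0 = 0 ∧ x 1 1 = 0) ∧
      (∀ x ∈ b, x ^ 2 ∈ b) ∧ HasRichardson k b ∧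
      ¬ ∃ (n : Type) (_ : Fintype n) (_ : DecidableEq n) (G : Subgroup (GL n k))
        (r : b →ₗ⁅k⁆ Matrix n n k), IsReductive G ∧ IsGood 2 G ∧ Function.Injective r ∧
          Set.range r = lie G :=
  ⟨Q.row1 k, fun _ => Iff.rfl, fun _ => Q.row1_sq, Q.row1_rich,
    fun ⟨_, _, _, _, r, h1, h2, h3, h4⟩ => Q.row1_not_lie (Q.st_group k 2) r h1 h2 h3 h4⟩

end Pool.Agent.Results.MP_3a0263_al.CharTwoExample
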