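import Pool.Agent.Lib.PRC2.All

namespace Pool.Agent.Results.MP_3a0263_al.ClassificationAll

open Pool.Agent.Lib.MP_3a0263_al.R Pool.Agent.Lib.MP_3a0263_al.Q

attribute [local instance 100] LieRing.ofAssociativeRing

universe u

theorem result (k : Type u) [Field k] [IsAlgClosed k] (p : ℕ) [Fact p.Prime] [CharP k p]
    (g : Type u) [LieRing g] [LieAlgebra k g] [FiniteDimensional k g] :
    HasRichardson k g ↔ (InClassC k p g ∧
      ((∃ r : ℕ, 1 ≤ r ∧ Nonempty (g ≃ₗ⁅k⁆ Matrix (Fin (r * p)) (Fin (r * p)) k)) ∨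
        (Module.finrank k (LieAlgebra.center k g) ≤ 1 ∧ ∃ S : Set (LieIdeal k g), sSupIndep S ∧
          IsCompl (LieAlgebra.center k g) (sSup S) ∧
          ∀ I ∈ S, LieAlgebra.IsSimple k I ∧ InClassC k p I))) ∨
      (p = 2 ∧ Module.finrank k g = 2 ∧ ¬ IsLieAbelian g) := by
  by_cases hp : p = 2
  · subst hp
    rw [Lib.PRC2.classification_two g]
    simp only [true_and]
  · simp only [hp, false_and, or_false]
    exact ⟨fun h => ⟨Lib.PRC.only_if k p g (Or.inl hp) h, (Lib.PRC.classification k p hp g).1 h⟩,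
      fun h => (Lib.PRC.classification k p hp g).2 h.2⟩

end Pool.Agent.Results.MP_3a0263_al.ClassificationAll
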