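import Pool.Agent.Lib.MP_3a0263_al.Q.PFin
import Pool.Agent.Lib.MP_3a0263_al.Q.P_PG1
import Pool.Agent.Lib.MP_3a0263_al.Q.P_PG2
import Pool.Agent.Lib.MP_3a0263_al.Q.P_PG3
import Pool.Agent.Lib.MP_3a0263_al.Q.P_PG4
import Pool.Agent.Lib.MP_3a0263_al.Q.P_PG5

namespace Pool.Agent.Results.MP_3a0263_al.PglInClassC

open Pool.Agent.Lib.MP_3a0263_al Pool.Agent.Lib.MP_3a0263_al.Q

attribute [local instance 100] LieRing.ofAssociativeRing

universe u

theorem result (k : Type u) [Field k] [IsAlgClosed k] (p : ℕ) [Fact p.Prime] [CharP k p]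
    (r : ℕ) (hr : 1 ≤ r) :
    LieAlgebra.center k (Matrix (Fin (r * p)) (Fin (r * p)) k ⧸ scalarIdealGl k (r * p)) = ⊥ ∧
    InClassC k p (Matrix (Fin (r * p)) (Fin (r * p)) k ⧸ scalarIdealGl k (r * p)) ∧
    ¬ HasInvariantComplement k
      (Matrix (Fin (r * p)) (Fin (r * p)) k ⧸ scalarIdealGl k (r * p)) := by
  have hp : 2 ≤ p := (Fact.out : p.Prime).two_le
  have hn : 0 < r * p := by positivity
  have hN : 2 ≤ r * p := hp.trans (Nat.le_mul_of_pos_left p hr)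
  have : Nonempty (Fin (r * p)) := ⟨⟨0, hn⟩⟩
  have h1 := st_pg1 k p _ hN
  have h2 := st_pg2 k p _ hN
  refine ⟨center_pgl k _ hn, pgl_inClassC p r hr h1 h2 (st_pg3 k p _ hN)
    (st_pg5 k p _ hN h2 (st_pg4 k p _ hN h1)), fun h => ?_⟩
  obtain ⟨m, ρ, π, h⟩ := h.ret
  exact not_ret_pgl (p := p) (by simp) (quotHom _) (quotHom_surj _) (quotHom_eq_zero _) h

end Pool.Agent.Results.MP_3a0263_al.PglInClassC
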